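import Pool.Agent.W_7d29a1_h4g.Grow
import Pool.Agent.W_7d29a1_h42.LuckAmp
import Pool.Agent.W_7d29a1_h47.SiteG

/-!
Track G (MP_7d29a1_pr): the hypothesis `LAfor μ` (luck amplification for logarithms of sums of path weights) from Lemma LA of
helper42 (`luck_amp`), for all nondegenerate laws with exponential moments. (helper4)
-/

namespace Pool.Agent.W_7d29a1_h4g

open MeasureTheory ProbabilityTheory Pool.Agent.W_7d29a1_F Pool.Agent.W_7d29a1_h60

section gradient

variable {n N : ℕ} (a : Fin N → ℝ) (A : Fin N → Finset (Fin n))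

/-- The sum. -/
noncomputable def Zs (w : Fin n → ℝ) : ℝ := ∑ k, a k * Real.exp (∑ j ∈ A k, w j)

/-- The part of the sum which uses `i`. -/
noncomputable def Ns (i : Fin n) (w : Fin n → ℝ) : ℝ := ∑ k, if i ∈ A k then a k * Real.exp (∑ j ∈ A k, w j) else 0

/-- The gradient of the logarithm. -/
noncomputable def gs (i : Fin n) (w : Fin n → ℝ) : ℝ := Ns a A i w / Zs a A w

theorem measurable_Zs : Measurable (Zs a A) := by
  unfold Zs
  exact Finset.measurable_sum _ fun k _ => measurable_const.mul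
    (Real.measurable_exp.comp (Finset.measurable_sum _ fun i _ => measurable_pi_apply i))

theorem measurable_Ns (i : Fin n) : Measurable (Ns a A i) := by
  unfold Ns
  refine Finset.measurable_sum _ fun k _ => ?_
  split_ifs
  · exact measurable_const.mul
      (Real.measurable_exp.comp (Finset.measurable_sum _ fun i _ => measurable_pi_apply i))
  · exact measurable_const

variable {a A}

theorem Zs_pos (ha : ∀ k, 0 ≤ a k) (hs : 0 < ∑ k, a k) (w : Fin n → ℝ) : 0 < Zs a A w := by
  obtain ⟨k, hk⟩ : ∃ k, 0 < a k := by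
    by_contra hcon
    push Not at hcon
    exact hs.not_ge (Finset.sum_nonpos fun k _ => hcon k)
  exact Finset.sum_pos' (fun i _ => mul_nonneg (ha i) (Real.exp_pos _).le)
    ⟨k, Finset.mem_univ k, mul_pos hk (Real.exp_pos _)⟩

theorem Zs_split (ha : ∀ k, 0 ≤ a k) (hs : 0 < ∑ k, a k) (i : Fin n) (w : Fin n → ℝ) : ∃ P Q : ℝ, 0 ≤ P ∧ 0 ≤ Q ∧ 0 < P + Q ∧
    ∀ t : ℝ, Zs a A (Function.update w i t) = P * Real.exp t + Q ∧ Ns a A i (Function.update w i t) = P * Real.exp t := by
  classical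
  obtain ⟨P, hP⟩ : ∃ P : ℝ, P = ∑ k, if i ∈ A k then a k * Real.exp (∑ j ∈ (A k).erase i, w j) else 0 := ⟨_, rfl⟩
  obtain ⟨Q, hQ⟩ : ∃ Q : ℝ, Q = ∑ k, if i ∈ A k then 0 else a k * Real.exp (∑ j ∈ A k, w j) := ⟨_, rfl⟩
  have h1 : ∀ t : ℝ, ∀ k, i ∈ A k → ∑ j ∈ A k, Function.update w i t j = t + ∑ j ∈ (A k).erase i, w j := by
    intro t k hk
    rw [← Finset.add_sum_erase _ _ hk, Function.update_self]
    congr 1
    refine Finset.sum_congr rfl fun j hj => ?_
    rw [Function.update_of_ne (Finset.ne_of_mem_erase hj)]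
  have h2 : ∀ t : ℝ, ∀ k, i ∉ A k → ∑ j ∈ A k, Function.update w i t j = ∑ j ∈ A k, w j := by
    intro t k hk
    refine Finset.sum_congr rfl fun j hj => ?_
    rw [Function.update_of_ne]
    rintro rfl
    exact hk hj
  have hN : ∀ t : ℝ, Ns a A i (Function.update w i t) = P * Real.exp t := by
    intro t
    unfold Ns
    rw [hP, Finset.sum_mul]
    refine Finset.sum_congr rfl fun k _ => ?_
    split_ifs with h
    · rw [h1 t k h, Real.exp_add]
      ring
    · ring
  refine ⟨P, Q, ?_, ?_, ?_, fun t => ⟨?_, hN t⟩⟩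
  · rw [hP]
    refine Finset.sum_nonneg fun k _ => ?_
    split_ifs
    · exact mul_nonneg (ha k) (Real.exp_pos _).le
    · exact le_rfl
  · rw [hQ]
    refine Finset.sum_nonneg fun k _ => ?_
    split_ifs
    · exact le_rfl
    · exact mul_nonneg (ha k) (Real.exp_pos _).le
  · obtain ⟨k, hk⟩ : ∃ k, 0 < a k := by
      by_contra hcon
      push Not at hcon
      exact hs.not_ge (Finset.sum_nonpos fun k _ => hcon k)
    rw [hP, hQ, ← Finset.sum_add_distrib]
    refine Finset.sum_pos' (fun l _ => ?_) ⟨k, Finset.mem_univ k, ?_⟩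
    · split_ifs
      · rw [add_zero]
        exact mul_nonneg (ha l) (Real.exp_pos _).le
      · rw [zero_add]
        exact mul_nonneg (ha l) (Real.exp_pos _).le
    · split_ifs
      · rw [add_zero]
        exact mul_pos hk (Real.exp_pos _)
      · rw [zero_add]
        exact mul_pos hk (Real.exp_pos _)
  · rw [← hN t]
    unfold Zs Ns
    rw [hQ, ← Finset.sum_add_distrib]
    refine Finset.sum_congr rfl fun k _ => ?_
    split_ifs with h
    · rw [add_zero]
    · rw [zero_add, h2 t k h]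

theorem gs_nonneg (ha : ∀ k, 0 ≤ a k) (i : Fin n) (w : Fin n → ℝ) : 0 ≤ gs a A i w := by
  unfold gs Ns Zs
  refine div_nonneg (Finset.sum_nonneg fun k _ => ?_) (Finset.sum_nonneg fun k _ => mul_nonneg (ha k) (Real.exp_pos _).le)
  split_ifs
  · exact mul_nonneg (ha k) (Real.exp_pos _).le
  · exact le_rfl

theorem gs_le (ha : ∀ k, 0 ≤ a k) (i : Fin n) (w : Fin n → ℝ) : gs a A i w ≤ 1 := by
  unfold gs Ns Zs
  refine div_le_one_of_le₀ (Finset.sum_le_sum fun k _ => ?_)
    (Finset.sum_nonneg fun k _ => mul_nonneg (ha k) (Real.exp_pos _).le)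
  split_ifs
  · exact le_rfl
  · exact mul_nonneg (ha k) (Real.exp_pos _).le

theorem measurable_gs (i : Fin n) : Measurable (gs a A i) := (measurable_Ns a A i).div (measurable_Zs a A)

/-- Harnack inequality for the gradient. -/
theorem gs_har (ha : ∀ k, 0 ≤ a k) (hs : 0 < ∑ k, a k) (i : Fin n) (w : Fin n → ℝ) (t t' : ℝ) :
    gs a A i (Function.update w i t) ≤ (1 + Real.exp (t - t')) * gs a A i (Function.update w i t') := by
  obtain ⟨P, Q, hP, hQ, hPQ, h⟩ := Zs_split (A := A) ha hs i w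
  unfold gs
  rw [(h t).1, (h t).2, (h t').1, (h t').2]
  have e0 : ∀ r : ℝ, 0 < P * Real.exp r + Q := by
    intro r
    rcases hP.lt_or_eq with h1 | h1
    · have := mul_pos h1 (Real.exp_pos r)
      linarith
    · rw [← h1] at hPQ ⊢
      linarith
  have e1 := e0 t
  have e2 := e0 t'
  have e3 : Real.exp (t - t') * Real.exp t' = Real.exp t := by
    rw [← Real.exp_add]
    congr 1
    ring
  have e4 := Real.exp_pos (t - t')
  have e5 := Real.exp_pos t'
  have e6 := Real.exp_pos t
  rw [mul_div_assoc', div_le_div_iff₀ e1 e2]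
  rw [← e3]
  have k1 : 0 ≤ P * P * Real.exp t' * Real.exp t' * Real.exp (t - t') := by positivity
  have k2 : 0 ≤ P * Q * Real.exp t' := by positivity
  have k3 : 0 ≤ P * P * Real.exp t' * Real.exp t' * (Real.exp (t - t') * Real.exp (t - t')) := by positivity
  nlinarith

/-- The oscillation in one coordinate. -/
theorem LS_osc (ha : ∀ k, 0 ≤ a k) (hs : 0 < ∑ k, a k) (i : Fin n) (w : Fin n → ℝ) (t t' : ℝ) :
    |LS a A (Function.update w i t) - LS a A (Function.update w i t')| ≤
      Real.exp (|t| + |t'|) * (gs a A i (Function.update w i t) + gs a A i (Function.update w i t')) := by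
  -- one sided form
  have key : ∀ t t' : ℝ, LS a A (Function.update w i t) - LS a A (Function.update w i t') ≤
      Real.exp (|t| + |t'|) * gs a A i (Function.update w i t') := by
    intro t t'
    obtain ⟨P, Q, hP, hQ, hPQ, h⟩ := Zs_split (A := A) ha hs i w
    have e0 : ∀ r : ℝ, 0 < P * Real.exp r + Q := by
      intro r
      rcases hP.lt_or_eq with h1 | h1
      · have := mul_pos h1 (Real.exp_pos r)
        linarith
      · rw [← h1] at hPQ ⊢
        linarith
    have e1 : LS a A (Function.update w i t) - LS a A (Function.update w i t') =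
        Real.log ((P * Real.exp t + Q) / (P * Real.exp t' + Q)) := by
      show Real.log (Zs a A (Function.update w i t)) - Real.log (Zs a A (Function.update w i t')) = _
      rw [(h t).1, (h t').1, Real.log_div (e0 t).ne' (e0 t').ne']
    have e2 : gs a A i (Function.update w i t') = P * Real.exp t' / (P * Real.exp t' + Q) := by
      unfold gs
      rw [(h t').1, (h t').2]
    rw [e1, e2]
    have e3 := Real.log_le_sub_one_of_pos (div_pos (e0 t) (e0 t'))
    refine e3.trans ?_
    have e4 : (P * Real.exp t + Q) / (P * Real.exp t' + Q) - 1 =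
        (Real.exp (t - t') - 1) * (P * Real.exp t' / (P * Real.exp t' + Q)) := by
      have e5 : Real.exp t = Real.exp (t - t') * Real.exp t' := by
        rw [← Real.exp_add]
        congr 1
        ring
      rw [e5]
      have := (e0 t').ne'
      field_simp
      ring
    rw [e4]
    refine mul_le_mul_of_nonneg_right ?_ (div_nonneg (mul_nonneg hP (Real.exp_pos _).le) (e0 t').le)
    have e6 : Real.exp (t - t') ≤ Real.exp (|t| + |t'|) := by
      refine Real.exp_le_exp.2 ?_
      have := le_abs_self t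
      have := neg_abs_le t'
      linarith
    linarith
  have h0 : 0 ≤ Real.exp (|t| + |t'|) := (Real.exp_pos _).le
  have h1 := mul_nonneg h0 (gs_nonneg (A := A) ha i (Function.update w i t))
  have h2 := mul_nonneg h0 (gs_nonneg (A := A) ha i (Function.update w i t'))
  rw [abs_le]
  constructor
  · have h3 := key t' t
    rw [add_comm |t'| |t|] at h3
    linarith
  · have h3 := key t t'
    linarith

/-- Convexity. -/
theorem LS_convex (ha : ∀ k, 0 ≤ a k) (hs : 0 < ∑ k, a k) (x y : Fin n → ℝ) :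
    LS a A x + ∑ i, gs a A i x * (y i - x i) ≤ LS a A y := by
  classical
  have hx := Zs_pos (A := A) ha hs x
  have hy := Zs_pos (A := A) ha hs y
  obtain ⟨p, hp⟩ : ∃ p : Fin N → ℝ, p = fun k => a k * Real.exp (∑ j ∈ A k, x j) / Zs a A x := ⟨_, rfl⟩
  obtain ⟨d, hd⟩ : ∃ d : Fin N → ℝ, d = fun k => ∑ j ∈ A k, (y j - x j) := ⟨_, rfl⟩
  have hp0 : ∀ k ∈ Finset.univ, 0 ≤ p k := fun k _ => by
    rw [hp]
    exact div_nonneg (mul_nonneg (ha k) (Real.exp_pos _).le) hx.le
  have hp1 : ∑ k, p k = 1 := by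
    rw [hp, ← Finset.sum_div]
    exact div_self hx.ne'
  have h1 : ∑ i, gs a A i x * (y i - x i) = ∑ k, p k * d k := by
    have e1 : ∀ i, gs a A i x * (y i - x i) = ∑ k, if i ∈ A k then p k * (y i - x i) else 0 := by
      intro i
      unfold gs Ns
      rw [Finset.sum_div, Finset.sum_mul]
      refine Finset.sum_congr rfl fun k _ => ?_
      rw [hp]
      split_ifs
      · rfl
      · rw [zero_div, zero_mul]
    have e2 : ∀ k, p k * d k = ∑ i, if i ∈ A k then p k * (y i - x i) else 0 := by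
      intro k
      rw [hd, Finset.mul_sum, ← Finset.sum_filter]
      refine Finset.sum_congr ?_ fun _ _ => rfl
      ext i
      simp
    simp_rw [e1, e2]
    exact Finset.sum_comm
  have h2 : Zs a A y = Zs a A x * ∑ k, p k * Real.exp (d k) := by
    rw [Finset.mul_sum]
    unfold Zs
    refine Finset.sum_congr rfl fun k _ => ?_
    rw [hp, hd]
    show a k * Real.exp (∑ j ∈ A k, y j) =
      Zs a A x * (a k * Real.exp (∑ j ∈ A k, x j) / Zs a A x * Real.exp (∑ j ∈ A k, (y j - x j)))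
    rw [Finset.sum_sub_distrib]
    have e1 : Real.exp (∑ j ∈ A k, y j) = Real.exp (∑ j ∈ A k, x j) * Real.exp (∑ j ∈ A k, y j - ∑ j ∈ A k, x j) := by
      rw [← Real.exp_add]
      congr 1
      ring
    rw [e1]
    have := hx.ne'
    field_simp
  have h3 : Real.exp (∑ k, p k * d k) ≤ ∑ k, p k * Real.exp (d k) := by
    have := convexOn_exp.map_sum_le hp0 hp1 (fun k _ => Set.mem_univ (d k))
    simpa [smul_eq_mul] using this
  show Real.log (Zs a A x) + _ ≤ Real.log (Zs a A y)
  rw [h1, h2, Real.log_mul hx.ne' (lt_of_lt_of_le (Real.exp_pos _) h3).ne']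
  refine add_le_add le_rfl ?_
  rw [Real.le_log_iff_exp_le (lt_of_lt_of_le (Real.exp_pos _) h3)]
  exact h3

/-- Linear growth. -/
theorem LS_LG (ha : ∀ k, 0 ≤ a k) (hs : 0 < ∑ k, a k) : Pool.Agent.W_7d29a1_h42.LG n (LS a A) := by
  classical
  refine ⟨measurable_LS a A, ?_⟩
  obtain ⟨k, hk⟩ : ∃ k, 0 < a k := by
    by_contra hcon
    push Not at hcon
    exact hs.not_ge (Finset.sum_nonpos fun k _ => hcon k)
  have hb : ∀ (l : Fin N) (w : Fin n → ℝ), |∑ x ∈ A l, w x| ≤ ∑ x, |w x| := by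
    intro l w
    exact (Finset.abs_sum_le_sum_abs _ _).trans
      (Finset.sum_le_sum_of_subset_of_nonneg (Finset.subset_univ _) fun _ _ _ => abs_nonneg _)
  refine ⟨|Real.log (∑ i, a i)| + |Real.log (a k)| + 1, by positivity, fun w => ?_⟩
  have hup : Zs a A w ≤ (∑ i, a i) * Real.exp (∑ x, |w x|) := by
    unfold Zs
    rw [Finset.sum_mul]
    refine Finset.sum_le_sum fun i _ => mul_le_mul_of_nonneg_left (Real.exp_le_exp.2 ?_) (ha i)
    exact (le_abs_self _).trans (hb i w)
  have hlo : a k * Real.exp (-∑ x, |w x|) ≤ Zs a A w := by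
    unfold Zs
    refine le_trans ?_ (Finset.single_le_sum (fun i _ => mul_nonneg (ha i) (Real.exp_pos _).le) (Finset.mem_univ k))
    refine mul_le_mul_of_nonneg_left (Real.exp_le_exp.2 ?_) hk.le
    have := neg_abs_le (∑ x ∈ A k, w x)
    have := hb k w
    linarith
  have hsum : 0 ≤ ∑ x, |w x| := Finset.sum_nonneg fun _ _ => abs_nonneg _
  have e1 := Real.log_le_log (Zs_pos (A := A) ha hs w) hup
  have e2 := Real.log_le_log (mul_pos hk (Real.exp_pos _)) hlo
  rw [Real.log_mul hs.ne' (Real.exp_pos _).ne', Real.log_exp] at e1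
  rw [Real.log_mul hk.ne' (Real.exp_pos _).ne', Real.log_exp] at e2
  have k1 := le_abs_self (Real.log (∑ i, a i))
  have k2 := neg_abs_le (Real.log (a k))
  have k3 := abs_nonneg (Real.log (∑ i, a i))
  have k4 := abs_nonneg (Real.log (a k))
  have e3 : LS a A w = Real.log (Zs a A w) := rfl
  rw [e3, abs_le]
  constructor <;> nlinarith

end gradient

variable {μ : Measure ℝ} [IsProbabilityMeasure μ]

/-- The sections of the gradient are integrable. -/
theorem gs_int {n N : ℕ} {a : Fin N → ℝ} {A : Fin N → Finset (Fin n)} (ha : ∀ k, 0 ≤ a k) (i : Fin n) (x : Fin n → ℝ) :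
    Integrable (fun t => gs a A i (Function.update x i t)) μ := by
  have hmeas : Measurable fun t : ℝ => gs a A i (Function.update x i t) :=
    (measurable_gs i).comp (measurable_update x)
  refine (integrable_const (1 : ℝ)).mono' hmeas.aestronglyMeasurable (Filter.Eventually.of_forall fun t => ?_)
  rw [Real.norm_eq_abs, abs_of_nonneg (gs_nonneg ha _ _)]
  exact gs_le ha _ _

/-- One function `φ` for the oscillations of all logarithms of sums of path weights. -/
theorem exists_phi (hEM : Pool.Agent.W_7d29a1_h47.EM μ) : ∃ φ : ℝ → ℝ, (∀ t, 0 ≤ φ t) ∧ Integrable φ μ ∧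
    Integrable (fun t => φ t ^ 2) μ ∧ ∀ (n N : ℕ) (a : Fin N → ℝ) (A : Fin N → Finset (Fin n)), (∀ k, 0 ≤ a k) →
    (0 < ∑ k, a k) → Pool.Agent.W_7d29a1_h42.Osc μ φ n (gs a A) (LS a A) := by
  classical
  obtain ⟨m, hmdef⟩ : ∃ m, m = ∫ t, (1 + Real.exp (-t))⁻¹ ∂μ := ⟨_, rfl⟩
  have hJ0 : ∀ t : ℝ, 0 < (1 + Real.exp (-t))⁻¹ := by
    intro t
    have := Real.exp_pos (-t)
    positivity
  have hJ1 : ∀ t : ℝ, (1 + Real.exp (-t))⁻¹ ≤ 1 := by
    intro t
    have := Real.exp_pos (-t)
    exact inv_le_one_of_one_le₀ (by linarith)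
  have hJm : Measurable fun t : ℝ => (1 + Real.exp (-t))⁻¹ := by fun_prop
  have hJi : Integrable (fun t : ℝ => (1 + Real.exp (-t))⁻¹) μ := by
    refine (integrable_const (1 : ℝ)).mono' hJm.aestronglyMeasurable (Filter.Eventually.of_forall fun t => ?_)
    rw [Real.norm_eq_abs, abs_of_pos (hJ0 t)]
    exact hJ1 t
  have hm0 : 0 < m := by
    rw [hmdef, integral_pos_iff_support_of_nonneg (fun t => (hJ0 t).le) hJi]
    have : Function.support (fun t : ℝ => (1 + Real.exp (-t))⁻¹) = Set.univ := by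
      ext t
      exact ⟨fun _ => Set.mem_univ _, fun _ => (hJ0 t).ne'⟩
    rw [this]
    simp
  -- the function phi
  obtain ⟨φ, hφ⟩ : ∃ φ : ℝ → ℝ, φ = fun t => (4 / m + 1) * Real.exp (2 * |t|) := ⟨_, rfl⟩
  have hφ0 : ∀ t, 0 ≤ φ t := fun t => by
    rw [hφ]
    positivity
  have hφ1 : Integrable φ μ := by
    rw [hφ]
    exact (hEM 2).const_mul _
  have hφ2 : Integrable (fun t => φ t ^ 2) μ := by
    rw [hφ]
    refine ((hEM 4).const_mul ((4 / m + 1) ^ 2)).congr (Filter.Eventually.of_forall fun t => ?_)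
    show (4 / m + 1) ^ 2 * Real.exp (4 * |t|) = ((4 / m + 1) * Real.exp (2 * |t|)) ^ 2
    rw [mul_pow, ← Real.exp_nat_mul]
    congr 2
    push_cast
    ring
  refine ⟨φ, hφ0, hφ1, hφ2, fun n N a A ha hs i x s s' => ?_⟩
  obtain ⟨I, hI⟩ : ∃ I, I = ∫ t, gs a A i (Function.update x i t) ∂μ := ⟨_, rfl⟩
  have hI0 : 0 ≤ I := by
    rw [hI]
    exact integral_nonneg fun t => gs_nonneg ha _ _
  -- pointwise bound of the gradient by the mean
  have h1 : ∀ r, gs a A i (Function.update x i r) ≤ 2 / m * Real.exp |r| * I := by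
    intro r
    have h2 : ∀ t, (1 + Real.exp (-t))⁻¹ * gs a A i (Function.update x i r) ≤
        2 * Real.exp |r| * gs a A i (Function.update x i t) := by
      intro t
      have h3 := gs_har (A := A) ha hs i x r t
      have h4 : 0 < 1 + Real.exp (-t) := by
        have := Real.exp_pos (-t)
        positivity
      rw [inv_mul_le_iff₀ h4]
      refine h3.trans ?_
      have h5 : Real.exp (r - t) ≤ Real.exp |r| * Real.exp (-t) := by
        rw [← Real.exp_add]
        refine Real.exp_le_exp.2 ?_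
        have := le_abs_self r
        linarith
      have h6 : 1 ≤ Real.exp |r| := Real.one_le_exp (abs_nonneg r)
      have h7 := gs_nonneg (A := A) ha i (Function.update x i t)
      have h8 := Real.exp_pos (-t)
      have h9 : 1 + Real.exp (r - t) ≤ (1 + Real.exp (-t)) * (2 * Real.exp |r|) := by nlinarith
      calc (1 + Real.exp (r - t)) * gs a A i (Function.update x i t)
          ≤ (1 + Real.exp (-t)) * (2 * Real.exp |r|) * gs a A i (Function.update x i t) :=
            mul_le_mul_of_nonneg_right h9 h7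
        _ = (1 + Real.exp (-t)) * (2 * Real.exp |r| * gs a A i (Function.update x i t)) := by ring
    have h3 : m * gs a A i (Function.update x i r) ≤ 2 * Real.exp |r| * I := by
      rw [hmdef, hI, ← integral_mul_const, ← integral_const_mul]
      exact integral_mono (hJi.mul_const _) ((gs_int ha i x).const_mul _) h2
    have h4 : gs a A i (Function.update x i r) ≤ 2 * Real.exp |r| * I / m := by
      rw [le_div_iff₀ hm0]
      linarith
    refine h4.trans_eq ?_
    ring
  have h2 := LS_osc (A := A) ha hs i x s s'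
  refine h2.trans ?_
  rw [← hI]
  have h3 := h1 s
  have h4 := h1 s'
  have h5 : 0 < Real.exp (|s| + |s'|) := Real.exp_pos _
  have e1 : Real.exp |s| ≤ Real.exp (|s| + |s'|) := Real.exp_le_exp.2 (by linarith [abs_nonneg s'])
  have e2 : Real.exp |s'| ≤ Real.exp (|s| + |s'|) := Real.exp_le_exp.2 (by linarith [abs_nonneg s])
  have h6 : gs a A i (Function.update x i s) + gs a A i (Function.update x i s') ≤
      4 / m * Real.exp (|s| + |s'|) * I := by
    have k0 : 0 ≤ 2 / m := by positivity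
    have k1 : 2 / m * Real.exp |s| * I ≤ 2 / m * Real.exp (|s| + |s'|) * I :=
      mul_le_mul_of_nonneg_right (mul_le_mul_of_nonneg_left e1 k0) hI0
    have k2 : 2 / m * Real.exp |s'| * I ≤ 2 / m * Real.exp (|s| + |s'|) * I :=
      mul_le_mul_of_nonneg_right (mul_le_mul_of_nonneg_left e2 k0) hI0
    have k3 : 4 / m * Real.exp (|s| + |s'|) * I = 2 / m * Real.exp (|s| + |s'|) * I + 2 / m * Real.exp (|s| + |s'|) * I := by
      ring
    linarith
  have h7 : φ s * φ s' = (4 / m + 1) ^ 2 * (Real.exp (|s| + |s'|) * Real.exp (|s| + |s'|)) := by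
    rw [hφ]
    show (4 / m + 1) * Real.exp (2 * |s|) * ((4 / m + 1) * Real.exp (2 * |s'|)) = _
    rw [← Real.exp_add]
    have : Real.exp (|s| + |s'| + (|s| + |s'|)) = Real.exp (2 * |s|) * Real.exp (2 * |s'|) := by
      rw [← Real.exp_add]
      congr 1
      ring
    rw [this]
    ring
  rw [h7]
  have h8 : 4 / m ≤ (4 / m + 1) ^ 2 := by
    have : 0 ≤ 4 / m := by positivity
    nlinarith
  calc Real.exp (|s| + |s'|) * (gs a A i (Function.update x i s) + gs a A i (Function.update x i s'))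
      ≤ Real.exp (|s| + |s'|) * (4 / m * Real.exp (|s| + |s'|) * I) := mul_le_mul_of_nonneg_left h6 h5.le
    _ = 4 / m * ((Real.exp (|s| + |s'|) * Real.exp (|s| + |s'|)) * I) := by ring
    _ ≤ (4 / m + 1) ^ 2 * ((Real.exp (|s| + |s'|) * Real.exp (|s| + |s'|)) * I) :=
        mul_le_mul_of_nonneg_right h8 (by positivity)
    _ = _ := by ring

/-- The first moment. -/
theorem FM_of (hEM : Pool.Agent.W_7d29a1_h47.EM μ) : Pool.Agent.W_7d29a1_h42.FM μ := by
  refine ((hEM 1).mono' measurable_id.aestronglyMeasurable (Filter.Eventually.of_forall fun t => ?_))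
  have := Real.add_one_le_exp (1 * |t|)
  rw [Real.norm_eq_abs]
  have := abs_nonneg t
  show |t| ≤ _
  linarith

/-- LUCK AMPLIFICATION for all nondegenerate laws with exponential moments. -/
theorem LAfor_all (hEM : Pool.Agent.W_7d29a1_h47.EM μ) (hnd : Pool.Agent.W_7d29a1_h47.Nondeg μ) : LAfor μ := by
  classical
  intro c hc K hK
  have hFM := FM_of hEM
  obtain ⟨xm, xp, hx, hm, hq⟩ := Pool.Agent.W_7d29a1_h47.exists_gap hnd
  have hexpint : Integrable (fun t : ℝ => Real.exp t) μ := by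
    refine (hEM 1).mono' Real.measurable_exp.aestronglyMeasurable (Filter.Eventually.of_forall fun t => ?_)
    rw [Real.norm_eq_abs, abs_of_pos (Real.exp_pos _)]
    refine Real.exp_le_exp.2 ?_
    have := le_abs_self t
    linarith
  obtain ⟨M, hM⟩ : ∃ M, M = ∫ t, Real.exp t ∂μ := ⟨_, rfl⟩
  have hM0 : 0 ≤ M := by
    rw [hM]
    exact integral_nonneg fun t => (Real.exp_pos t).le
  -- Harnack integrated
  have hI1 : ∀ t' : ℝ, Integrable (fun t : ℝ => 1 + Real.exp (t - t')) μ := by
    intro t'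
    refine (integrable_const (1 : ℝ)).add ((hexpint.const_mul (Real.exp (-t'))).congr
      (Filter.Eventually.of_forall fun t => ?_))
    show Real.exp (-t') * Real.exp t = Real.exp (t - t')
    rw [← Real.exp_add]
    congr 1
    ring
  have hI2 : ∀ t' : ℝ, ∫ t, (1 + Real.exp (t - t')) ∂μ = 1 + M * Real.exp (-t') := by
    intro t'
    have e1 : ∀ t : ℝ, Real.exp (t - t') = Real.exp (-t') * Real.exp t := by
      intro t
      rw [← Real.exp_add]
      congr 1
      ring
    simp_rw [e1]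
    rw [integral_add (integrable_const _) (hexpint.const_mul _), integral_const_mul, ← hM]
    simp
    ring
  obtain ⟨c2, hc2⟩ : ∃ c2, c2 = ∫ t in Set.Iic xm, (1 + M * Real.exp (-t))⁻¹ ∂μ := ⟨_, rfl⟩
  have hinv0 : ∀ t : ℝ, 0 < (1 + M * Real.exp (-t))⁻¹ := by
    intro t
    have := Real.exp_pos (-t)
    positivity
  have hinv1 : ∀ t : ℝ, (1 + M * Real.exp (-t))⁻¹ ≤ 1 := by
    intro t
    have := Real.exp_pos (-t)
    refine inv_le_one_of_one_le₀ ?_
    nlinarith [mul_nonneg hM0 this.le]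
  have hinvm : Measurable fun t : ℝ => (1 + M * Real.exp (-t))⁻¹ := by fun_prop
  have hinvi : Integrable (fun t : ℝ => (1 + M * Real.exp (-t))⁻¹) μ := by
    refine (integrable_const (1 : ℝ)).mono' hinvm.aestronglyMeasurable (Filter.Eventually.of_forall fun t => ?_)
    rw [Real.norm_eq_abs, abs_of_pos (hinv0 t)]
    exact hinv1 t
  have hc20 : 0 < c2 := by
    rw [hc2]
    rw [setIntegral_pos_iff_support_of_nonneg_ae]
    · have : Function.support (fun t : ℝ => (1 + M * Real.exp (-t))⁻¹) = Set.univ := by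
        ext t
        exact ⟨fun _ => Set.mem_univ _, fun _ => (hinv0 t).ne'⟩
      rw [this, Set.univ_inter]
      rw [Measure.real, ENNReal.toReal_pos_iff] at hm
      exact hm.1
    · exact Filter.Eventually.of_forall fun t => (hinv0 t).le
    · exact hinvi.integrableOn
  obtain ⟨φ, hφ0, hφ1, hφ2, hφ3⟩ := exists_phi hEM
  obtain ⟨c', hc'⟩ : ∃ c', c' = min c 1 := ⟨_, rfl⟩
  have hc'0 : 0 < c' := by rw [hc']; exact lt_min hc one_pos
  have hc'1 : c' ≤ 1 := by rw [hc']; exact min_le_right _ _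
  have hc'c : c' ≤ c := by rw [hc']; exact min_le_left _ _
  obtain ⟨B, U0, hB, hU0, hLA⟩ := Pool.Agent.W_7d29a1_h42.luck_amp (ν := μ) hFM hx hq (β := 1) (c2 := c2) zero_le_one hc20
    hφ0 hφ1 hφ2 (δ := c' ^ 3) (by positivity) (pow_le_one₀ hc'0.le hc'1) hK
  refine ⟨U0, B, fun n N a A ha hs U hU hfl => ?_⟩
  have hLG := LS_LG (A := A) ha hs
  have hU' : 0 < U := lt_of_lt_of_le hU0 hU
  have hGD : Pool.Agent.W_7d29a1_h42.GD μ xm 1 c2 n (gs a A) := by
    refine ⟨fun i => measurable_gs i, fun i x => gs_nonneg ha _ _, fun i x => gs_le ha _ _, fun i x => ?_⟩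
    have h1 : ∀ t', ∫ t, gs a A i (Function.update x i t) ∂μ ≤ (1 + M * Real.exp (-t')) * gs a A i (Function.update x i t') := by
      intro t'
      rw [← hI2 t', ← integral_mul_const]
      exact integral_mono (gs_int ha i x) ((hI1 t').mul_const _) fun t => gs_har ha hs i x t t'
    have h2 : ∀ t', (1 + M * Real.exp (-t'))⁻¹ * ∫ t, gs a A i (Function.update x i t) ∂μ ≤
        gs a A i (Function.update x i t') := by
      intro t'
      have h3 : 0 < 1 + M * Real.exp (-t') := by
        have := Real.exp_pos (-t')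
        positivity
      rw [inv_mul_le_iff₀ h3]
      exact h1 t'
    rw [hc2, ← integral_mul_const]
    exact integral_mono (hinvi.integrableOn.mul_const _) (gs_int ha i x).integrableOn fun t' => h2 t'
  obtain ⟨b, hb⟩ : ∃ b, b = ∫ u, LS a A u ∂(Measure.pi fun _ : Fin n => μ) := ⟨_, rfl⟩
  have hfl2 : c' ^ 3 * U ^ 2 ≤ ∫ x, min ((LS a A x - ∫ y, LS a A y ∂(Pool.Agent.W_7d29a1_h42.PN μ n)) ^ 2) (U ^ 2)
      ∂(Pool.Agent.W_7d29a1_h42.PN μ n) := by
    show c' ^ 3 * U ^ 2 ≤ ∫ x, min ((LS a A x - ∫ y, LS a A y ∂(Measure.pi fun _ : Fin n => μ)) ^ 2) (U ^ 2)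
      ∂(Measure.pi fun _ : Fin n => μ)
    rw [← hb]
    rw [← hb] at hfl
    have hset : MeasurableSet {w : Fin n → ℝ | c * U ≤ |LS a A w - b|} :=
      measurableSet_le measurable_const ((measurable_LS a A).sub_const _).abs
    have h1 : ∀ x, {w : Fin n → ℝ | c * U ≤ |LS a A w - b|}.indicator (fun _ => c' ^ 2 * U ^ 2) x ≤
        min ((LS a A x - b) ^ 2) (U ^ 2) := by
      intro x
      by_cases hxs : x ∈ {w : Fin n → ℝ | c * U ≤ |LS a A w - b|}
      · rw [Set.indicator_of_mem hxs]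
        rw [Set.mem_ofPred_eq] at hxs
        refine le_min ?_ ?_
        · rw [← mul_pow, ← sq_abs (LS a A x - b)]
          refine pow_le_pow_left₀ (by positivity) (le_trans ?_ hxs) 2
          exact mul_le_mul_of_nonneg_right hc'c hU'.le
        · have : c' ^ 2 ≤ 1 := pow_le_one₀ hc'0.le hc'1
          nlinarith [sq_nonneg U]
      · rw [Set.indicator_of_notMem hxs]
        exact le_min (sq_nonneg _) (sq_nonneg _)
    have h2 : ∫ x, {w : Fin n → ℝ | c * U ≤ |LS a A w - b|}.indicator (fun _ => c' ^ 2 * U ^ 2) x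
        ∂(Measure.pi fun _ : Fin n => μ) ≤ ∫ x, min ((LS a A x - b) ^ 2) (U ^ 2) ∂(Measure.pi fun _ : Fin n => μ) := by
      refine integral_mono ((integrable_const _).indicator hset) ?_ h1
      have hmeas : Measurable fun x => min ((LS a A x - b) ^ 2) (U ^ 2) :=
        (((measurable_LS a A).sub_const b).pow_const 2).min measurable_const
      refine (integrable_const (U ^ 2)).mono' hmeas.aestronglyMeasurable (Filter.Eventually.of_forall fun x => ?_)
      rw [Real.norm_eq_abs, abs_of_nonneg (le_min (sq_nonneg _) (sq_nonneg _))]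
      exact min_le_right _ _
    rw [integral_indicator hset, setIntegral_const, smul_eq_mul] at h2
    refine le_trans ?_ h2
    calc c' ^ 3 * U ^ 2 = c' * (c' ^ 2 * U ^ 2) := by ring
      _ ≤ _ := mul_le_mul_of_nonneg_right (hc'c.trans hfl) (by positivity)
  obtain ⟨ψ, h1, h2, h3, h4, h5⟩ := hLA n (LS a A) (gs a A) hLG hGD (hφ3 n N a A ha hs) (LS_convex ha hs) U hU hfl2
  exact ⟨fun w => ψ (LS a A w), h1.comp (measurable_LS a A), fun w => h2 _, fun w => h3 _, h4, h5⟩

/-- (hG), unconditional: at a soft scale the unit grows by any factor `B` within `T` octaves. -/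
theorem EU_grows_all (hEM : Pool.Agent.W_7d29a1_h47.EM μ) (hnd : Pool.Agent.W_7d29a1_h47.Nondeg μ) {c C₀ : ℝ} (hc : 0 < c)
    (hC₀ : 0 ≤ C₀) {B : ℝ} (hB : 0 ≤ B) : ∃ (T : ℕ) (U₀ : ℝ), ∀ (s : ℝ) (z : ℕ → ℤ), (∀ m, 0 ≤ z m ∧ z m ≤ m) →
    ∀ n : ℕ, U₀ ≤ EU μ s z n → Soft μ s z c C₀ n → B * EU μ s z n ≤ EU μ s z (2 ^ T * n) :=
  EU_grows (LAfor_all hEM hnd) hEM hc hC₀ hB

/-- (MC), unconditional. -/
theorem mean_le_EU_all (hEM : Pool.Agent.W_7d29a1_h47.EM μ) (hnd : Pool.Agent.W_7d29a1_h47.Nondeg μ) {p : ℝ} (hp : 0 < p) :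
    ∃ (T : ℕ) (C : ℝ), ∀ (s : ℝ) (z : ℕ → ℤ), (∀ m, 0 ≤ z m ∧ z m ≤ m) → ∀ n : ℕ, ∀ G : Env → ℝ, Poly (rows 0 n) G →
    (∀ η, 0 < G η) → (∀ η, Real.log (G η) ≤ V μ s η 0 n) → ∀ y : ℝ, p ≤ (law μ).real {η | -y ≤ Real.log (G η)} →
    -∫ η, Real.log (G η) ∂(law μ) ≤ max (max (2 * y) C) (6 * EU μ s z (2 ^ T * n)) :=
  mean_le_EU (LAfor_all hEM hnd) hEM hp

/-- Soft is monotone in the constants. -/
theorem Soft.mono {s : ℝ} {z : ℕ → ℤ} {c C₀ c' C₀' : ℝ} {n : ℕ} (h : Soft μ s z c C₀ n) (hc : c' ≤ c) (hC : C₀ ≤ C₀') :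
    Soft μ s z c' C₀' n := by
  obtain ⟨G, h1, h2, h3, h4, h5⟩ := h
  have hE := one_le_EU (μ := μ) (s := s) (z := z) n
  refine ⟨G, h1, h2, h3, le_trans ?_ h4, hc.trans (h5.trans (measureReal_mono (fun η hη => ?_) (measure_ne_top _ _)))⟩
  · have := mul_le_mul_of_nonneg_right hC (by linarith : (0 : ℝ) ≤ EU μ s z n)
    linarith
  · rw [Set.mem_ofPred_eq] at hη ⊢
    exact (mul_le_mul_of_nonneg_right hc (by linarith : (0 : ℝ) ≤ EU μ s z n)).trans hη

end Pool.Agent.W_7d29a1_h4g
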