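import Pool.Agent.W_7d29a1_h4g.LAinst

/-!
Track G (MP_7d29a1_pr): the logarithm of a sum of path weights of duration `l` has fluctuations at most of the order of the square
root of `l` (Efron - Stein); the number of sites of every term is at most `l` because of `log G ≤ V_l`. (helper4)
-/

namespace Pool.Agent.W_7d29a1_h4g

open MeasureTheory ProbabilityTheory Pool.Agent.W_7d29a1_F Pool.Agent.W_7d29a1_h60

section card

theorem Zr_le (R : Set Pt) (η : Env) {t : ℝ} (hη : ∀ p, η p ≤ t) (a : Pt) (n : ℕ) (y : ℤ) :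
    Zr R η a n y ≤ 2 ^ n * Real.exp (t * n) := by
  induction n generalizing y with
  | zero =>
    show (if y = 0 then (1 : ℝ) else 0) ≤ _
    simp
    split_ifs <;> norm_num
  | succ n ih =>
    show R.indicator (fun p => Real.exp (η p)) (a.1 + ((n : ℤ) + 1), a.2 + y) *
      (Zr R η a n y + Zr R η a n (y - 1)) ≤ _
    have h1 : R.indicator (fun p => Real.exp (η p)) (a.1 + ((n : ℤ) + 1), a.2 + y) ≤ Real.exp t := by
      refine Set.indicator_le_self' (fun _ _ => (Real.exp_pos _).le) _ |>.trans ?_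
      exact Real.exp_le_exp.2 (hη _)
    have h2 : 0 ≤ R.indicator (fun p => Real.exp (η p)) (a.1 + ((n : ℤ) + 1), a.2 + y) :=
      Set.indicator_nonneg (fun _ _ => (Real.exp_pos _).le) _
    have h3 : 0 ≤ 2 ^ n * Real.exp (t * n) := by positivity
    calc _ ≤ Real.exp t * (2 ^ n * Real.exp (t * n) + 2 ^ n * Real.exp (t * n)) := by
          refine (mul_le_mul_of_nonneg_left (add_le_add (ih y) (ih (y - 1))) h2).trans ?_
          exact mul_le_mul_of_nonneg_right h1 (by positivity)
      _ = 2 ^ (n + 1) * Real.exp (t * (n + 1 : ℕ)) := by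
          have : Real.exp (t * (n + 1 : ℕ)) = Real.exp t * Real.exp (t * n) := by
            rw [← Real.exp_add]
            congr 1
            push_cast
            ring
          rw [this, pow_succ]
          ring

/-- If `log G ≤ V_l` then all terms of `G` have at most `l` sites. -/
theorem Poly.card_le {μ : Measure ℝ} {s : ℝ} {S : Set Pt} {G : Env → ℝ} {l : ℕ} (h : Poly S G) (hG : ∀ η, 0 < G η)
    (hV : ∀ η, Real.log (G η) ≤ V μ s η 0 l) : ∃ (N : ℕ) (c : Fin N → ℝ) (A : Fin N → Finset Pt), (∀ i, 0 ≤ c i) ∧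
    (∀ i, (A i : Set Pt) ⊆ S) ∧ (∀ i, (A i).card ≤ l) ∧ ∀ η, G η = ∑ i, c i * Real.exp (∑ x ∈ A i, η x) := by
  classical
  obtain ⟨N, c, A, h1, h2, h3⟩ := h
  have key : ∀ i, 0 < c i → (A i).card ≤ l := by
    intro i hi
    by_contra hcon
    push Not at hcon
    -- upper bound for the point to level weight in an environment bounded by `t`
    obtain ⟨K, hK⟩ : ∃ K, K = ∑ y ∈ Finset.Icc (0 : ℤ) l, Real.exp (s * y - l * lam μ s) * 2 ^ l := ⟨_, rfl⟩
    have hKpos : 0 < K := by
      rw [hK]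
      refine Finset.sum_pos (fun y _ => by positivity) ⟨0, ?_⟩
      rw [Finset.mem_Icc]
      exact ⟨le_rfl, Int.natCast_nonneg l⟩
    have hup : ∀ t : ℝ, 0 ≤ t → c i * Real.exp (t * (A i).card) ≤ K * Real.exp (t * l) := by
      intro t ht
      obtain ⟨η, hη⟩ : ∃ η : Env, η = fun p => if p ∈ A i then t else 0 := ⟨_, rfl⟩
      have hηt : ∀ p, η p ≤ t := by
        intro p
        rw [hη]
        show (if p ∈ A i then t else 0) ≤ t
        split_ifs
        · exact le_rfl
        · exact ht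
      have e1 : ∑ x ∈ A i, η x = t * (A i).card := by
        have : ∀ x ∈ A i, η x = t := by
          intro x hx
          rw [hη]
          exact if_pos hx
        rw [Finset.sum_congr rfl this, Finset.sum_const, nsmul_eq_mul]
        ring
      have e2 : c i * Real.exp (t * (A i).card) ≤ G η := by
        rw [h3 η, ← e1]
        exact Finset.single_le_sum (f := fun i => c i * Real.exp (∑ x ∈ A i, η x))
          (fun j _ => mul_nonneg (h1 j) (Real.exp_pos _).le) (Finset.mem_univ i)
      have e3 : WS μ s η 0 l (Finset.Icc (0 : ℤ) l) ≤ K * Real.exp (t * l) := by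
        rw [hK, Finset.sum_mul]
        unfold WS
        refine Finset.sum_le_sum fun y _ => ?_
        show Real.exp (s * y - l * lam μ s) * Zr Set.univ η 0 l y ≤ _
        rw [mul_assoc]
        exact mul_le_mul_of_nonneg_left (Zr_le _ _ hηt _ _ _) (Real.exp_pos _).le
      have e4 : G η ≤ K * Real.exp (t * l) := by
        have e5 := hV η
        have e6 : G η = Real.exp (Real.log (G η)) := (Real.exp_log (hG η)).symm
        have e7 : Real.log (G η) ≤ Real.log (K * Real.exp (t * l)) := by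
          refine e5.trans ?_
          unfold V
          by_cases h0 : 0 < WS μ s η 0 l (Finset.Icc (0 : ℤ) l)
          · exact Real.log_le_log h0 e3
          · have h4 : WS μ s η 0 l (Finset.Icc (0 : ℤ) l) = 0 := by
              refine le_antisymm (not_lt.1 h0) ?_
              exact (poly_WS (μ := μ) (s := s) 0 l (Finset.Icc (0 : ℤ) l)).nonneg η
            exfalso
            -- the straight path has positive weight
            have h5 : 0 < WS μ s η 0 l (Finset.Icc (0 : ℤ) l) := by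
              unfold WS
              refine Finset.sum_pos (fun y hy => ?_) ⟨0, ?_⟩
              · rw [Finset.mem_Icc] at hy
                exact W_pos η 0 hy.1 hy.2
              · rw [Finset.mem_Icc]
                exact ⟨le_rfl, Int.natCast_nonneg l⟩
            exact h0 h5
        rw [e6]
        have e8 : K * Real.exp (t * l) = Real.exp (Real.log (K * Real.exp (t * l))) :=
          (Real.exp_log (mul_pos hKpos (Real.exp_pos _))).symm
        rw [e8]
        exact Real.exp_le_exp.2 e7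
      exact e2.trans e4
    obtain ⟨t, ht⟩ : ∃ t : ℝ, t = |Real.log (K / c i)| + 1 := ⟨_, rfl⟩
    have ht0 : 0 ≤ t := by rw [ht]; positivity
    have h4 := hup t ht0
    have h5 : t * (l : ℝ) + t ≤ t * (A i).card := by
      have : (l : ℝ) + 1 ≤ (A i).card := by exact_mod_cast hcon
      nlinarith
    have h6 : c i * (Real.exp (t * l) * Real.exp t) ≤ K * Real.exp (t * l) := by
      refine le_trans ?_ h4
      rw [← Real.exp_add]
      exact mul_le_mul_of_nonneg_left (Real.exp_le_exp.2 h5) hi.le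
    have h7 : c i * Real.exp t ≤ K := by
      have h8 := Real.exp_pos (t * l)
      nlinarith
    have h8 : Real.exp t ≤ K / c i := by
      rw [le_div_iff₀ hi]
      linarith
    have h9 := Real.log_le_log (Real.exp_pos t) h8
    rw [Real.log_exp] at h9
    have := le_abs_self (Real.log (K / c i))
    linarith
  refine ⟨N, c, fun i => if 0 < c i then A i else ∅, h1, fun i => ?_, fun i => ?_, fun η => ?_⟩
  · show ((if 0 < c i then A i else ∅ : Finset Pt) : Set Pt) ⊆ S
    split_ifs
    · exact h2 i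
    · simp
  · show (if 0 < c i then A i else ∅ : Finset Pt).card ≤ l
    split_ifs with hi
    · exact key i hi
    · simp
  · rw [h3 η]
    refine Finset.sum_congr rfl fun i _ => ?_
    by_cases hi : 0 < c i
    · simp only [if_pos hi]
    · have : c i = 0 := le_antisymm (not_lt.1 hi) (h1 i)
      rw [this, zero_mul, zero_mul]

end card

section energy

open Pool.Agent.W_7d29a1_h42 in
/-- Without stopping the energy is at most the sum of the means of the derivatives, if they are at most one. -/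
theorem IS_le_sum {μ : Measure ℝ} [IsProbabilityMeasure μ] {M xm c2 : ℝ} (N : ℕ) : ∀ (g : Fin N → (Fin N → ℝ) → ℝ) (A : ℝ),
    GD μ xm 1 c2 N g → A + N ≤ M → IS μ M N g A ≤ ∑ i, ∫ x, g i x ∂(PN μ N) ∧ IT μ M N g A = 0 := by
  induction N with
  | zero =>
    intro g A _ _
    simp [IS, IT]
  | succ N ih =>
    intro g A hg hA
    have ha0 := am_nonneg hg
    have ha1 := am_le hg
    have ha2 : am μ g ^ 2 ≤ am μ g := by nlinarith
    have hA' : A + am μ g ^ 2 + N ≤ M := by
      push_cast at hA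
      linarith
    have hle : A + am μ g ^ 2 ≤ M := by
      have : (0 : ℝ) ≤ N := Nat.cast_nonneg N
      linarith
    have h1 : ∀ x, IS μ M N (sg g x) (A + am μ g ^ 2) ≤ ∑ i, ∫ z, sg g x i z ∂(PN μ N) := fun x =>
      (ih (sg g x) _ (hg.sec x) hA').1
    have h2 : ∀ x, IT μ M N (sg g x) (A + am μ g ^ 2) = 0 := fun x => (ih (sg g x) _ (hg.sec x) hA').2
    have h3 : ∀ i : Fin N, Integrable (fun x => ∫ z, sg g x i z ∂(PN μ N)) μ := fun i => int_cn' (hg.int i.succ)
    simp only [IS, IT]
    rw [if_pos hle, if_pos hle]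
    refine ⟨?_, ?_⟩
    · rw [Fin.sum_univ_succ]
      refine add_le_add ha2 ?_
      refine (integral_mono (IS_sec_int hg.meas hle) (integrable_finsetSum _ fun i _ => h3 i) h1).trans ?_
      rw [integral_finsetSum _ fun i _ => h3 i]
      refine Finset.sum_le_sum fun i _ => ?_
      rw [int_cn (hg.int i.succ)]
      exact le_rfl
    · simp_rw [h2]
      simp

theorem sum_gs_le {n N : ℕ} {a : Fin N → ℝ} {A : Fin N → Finset (Fin n)} (ha : ∀ k, 0 ≤ a k) (hs : 0 < ∑ k, a k) {l : ℕ}
    (hl : ∀ k, (A k).card ≤ l) (w : Fin n → ℝ) : ∑ i, gs a A i w ≤ l := by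
  classical
  have hZ := Zs_pos (A := A) ha hs w
  unfold gs
  rw [← Finset.sum_div, div_le_iff₀ hZ]
  unfold Ns Zs
  rw [Finset.sum_comm, Finset.mul_sum]
  refine Finset.sum_le_sum fun k _ => ?_
  rw [← Finset.sum_filter, Finset.sum_const, nsmul_eq_mul]
  refine mul_le_mul_of_nonneg_right ?_ (mul_nonneg (ha k) (Real.exp_pos _).le)
  have : (Finset.univ.filter fun i => i ∈ A k) = A k := by
    ext i
    simp
  rw [this]
  exact_mod_cast hl k

/-- Chebyshev's inequality for the logarithm of a sum of path weights, pure form. -/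
theorem LS_cheb {μ : Measure ℝ} [IsProbabilityMeasure μ] (hEM : Pool.Agent.W_7d29a1_h47.EM μ) : ∃ C : ℝ, 0 ≤ C ∧
    ∀ (n N : ℕ) (a : Fin N → ℝ) (A : Fin N → Finset (Fin n)), (∀ k, 0 ≤ a k) → (0 < ∑ k, a k) → ∀ l : ℕ,
    (∀ k, (A k).card ≤ l) → ∀ y : ℝ, 0 < y →
    y ^ 2 * (Measure.pi fun _ : Fin n => μ).real {w | y ≤ |LS a A w - ∫ u, LS a A u ∂(Measure.pi fun _ => μ)|} ≤ C * l := by
  classical
  obtain ⟨φ, hφ0, hφ1, hφ2, hφ3⟩ := exists_phi hEM
  obtain ⟨C, hC⟩ : ∃ C, C = (∫ t, φ t ∂μ) ^ 2 * ∫ t, φ t ^ 2 ∂μ := ⟨_, rfl⟩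
  have hC0 : 0 ≤ C := by
    rw [hC]
    exact mul_nonneg (sq_nonneg _) (integral_nonneg fun t => sq_nonneg _)
  refine ⟨C, hC0, fun n N a A ha hs l hl y hy => ?_⟩
  obtain ⟨b, hb⟩ : ∃ b, b = ∫ u, LS a A u ∂(Measure.pi fun _ : Fin n => μ) := ⟨_, rfl⟩
  have hFM := FM_of hEM
  have hGD : Pool.Agent.W_7d29a1_h42.GD μ 0 1 0 n (gs a A) :=
    ⟨fun i => measurable_gs i, fun i x => gs_nonneg ha _ _, fun i x => gs_le ha _ _, fun i x => by
      rw [zero_mul]
      exact integral_nonneg fun t => gs_nonneg ha _ _⟩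
  have h1 := Pool.Agent.W_7d29a1_h42.fluct (M := n) hFM hφ0 hφ1 hφ2 n (LS a A) (gs a A) 0 b (y ^ 2) (LS_LG ha hs) hGD
    (sq_nonneg y) (Nat.cast_nonneg n) (hφ3 n N a A ha hs)
  obtain ⟨h2, h3⟩ := IS_le_sum (M := n) n (gs a A) 0 hGD (by simp)
  rw [h3, mul_zero, add_zero] at h1
  have h4 : ∑ i, ∫ x, gs a A i x ∂(Pool.Agent.W_7d29a1_h42.PN μ n) ≤ l := by
    rw [← integral_finsetSum _ fun i _ => hGD.int i]
    calc ∫ x, ∑ i, gs a A i x ∂(Pool.Agent.W_7d29a1_h42.PN μ n) ≤ ∫ _x, (l : ℝ) ∂(Pool.Agent.W_7d29a1_h42.PN μ n) :=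
          integral_mono (integrable_finsetSum _ fun i _ => hGD.int i) (integrable_const _) fun x => sum_gs_le ha hs hl x
      _ = l := by simp
  have h5 : ∫ x, LS a A x ∂(Pool.Agent.W_7d29a1_h42.PN μ n) = b := hb.symm
  rw [h5, sub_self, ← hC] at h1
  have h6 : ∫ x, min ((LS a A x - b) ^ 2) (y ^ 2) ∂(Pool.Agent.W_7d29a1_h42.PN μ n) ≤ C * l := by
    refine h1.trans ?_
    have := mul_le_mul_of_nonneg_left (h2.trans h4) hC0
    linarith
  refine le_trans ?_ h6
  rw [← hb]
  have hset : MeasurableSet {w : Fin n → ℝ | y ≤ |LS a A w - b|} :=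
    measurableSet_le measurable_const ((measurable_LS a A).sub_const _).abs
  have h7 : ∀ x, {w : Fin n → ℝ | y ≤ |LS a A w - b|}.indicator (fun _ => y ^ 2) x ≤
      min ((LS a A x - b) ^ 2) (y ^ 2) := by
    intro x
    by_cases hxs : x ∈ {w : Fin n → ℝ | y ≤ |LS a A w - b|}
    · rw [Set.indicator_of_mem hxs]
      rw [Set.mem_ofPred_eq] at hxs
      refine le_min ?_ le_rfl
      rw [← sq_abs (LS a A x - b)]
      exact pow_le_pow_left₀ hy.le hxs 2
    · rw [Set.indicator_of_notMem hxs]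
      exact le_min (sq_nonneg _) (sq_nonneg _)
  have h8 : ∫ x, {w : Fin n → ℝ | y ≤ |LS a A w - b|}.indicator (fun _ => y ^ 2) x
      ∂(Measure.pi fun _ : Fin n => μ) ≤ ∫ x, min ((LS a A x - b) ^ 2) (y ^ 2) ∂(Measure.pi fun _ : Fin n => μ) := by
    refine integral_mono ((integrable_const _).indicator hset) ?_ h7
    have hmeas : Measurable fun x => min ((LS a A x - b) ^ 2) (y ^ 2) :=
      (((measurable_LS a A).sub_const b).pow_const 2).min measurable_const
    refine (integrable_const (y ^ 2)).mono' hmeas.aestronglyMeasurable (Filter.Eventually.of_forall fun x => ?_)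
    rw [Real.norm_eq_abs, abs_of_nonneg (le_min (sq_nonneg _) (sq_nonneg _))]
    exact min_le_right _ _
  rw [integral_indicator hset, setIntegral_const, smul_eq_mul] at h8
  rw [mul_comm]
  exact h8

end energy

section law

/-- The reduction to finitely many independent variables. -/
theorem poly_pi {S : Set Pt} {N : ℕ} {c : Fin N → ℝ} {A : Fin N → Finset Pt} (h2 : ∀ i, (A i : Set Pt) ⊆ S) :
    ∃ (n : ℕ) (x : Fin n → Pt) (B : Fin N → Finset (Fin n)), Function.Injective x ∧ (∀ i, x i ∈ S) ∧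
      (∀ k, (B k).card ≤ (A k).card) ∧
      ∀ η : Env, LS c B (fun i => η (x i)) = Real.log (∑ i, c i * Real.exp (∑ p ∈ A i, η p)) := by
  classical
  obtain ⟨T, hT⟩ : ∃ T : Finset Pt, T = Finset.univ.biUnion A := ⟨_, rfl⟩
  have hTS : (T : Set Pt) ⊆ S := by
    intro p hp
    rw [hT, Finset.mem_coe, Finset.mem_biUnion] at hp
    obtain ⟨i, -, hi⟩ := hp
    exact h2 i hi
  have hAT : ∀ i, A i ⊆ T := fun i => by
    rw [hT]
    exact Finset.subset_biUnion_of_mem A (Finset.mem_univ i)
  obtain ⟨e⟩ : Nonempty (Fin (Fintype.card T) ≃ T) := ⟨(Fintype.equivFin T).symm⟩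
  obtain ⟨x, hxdef⟩ : ∃ x : Fin (Fintype.card T) → Pt, x = fun i => ((e i : T) : Pt) := ⟨_, rfl⟩
  have hx : Function.Injective x := by
    intro i j hij
    rw [hxdef] at hij
    exact e.injective (Subtype.ext hij)
  obtain ⟨B, hB⟩ : ∃ B : Fin N → Finset (Fin (Fintype.card T)), B = fun k => Finset.univ.filter fun i => x i ∈ A k :=
    ⟨_, rfl⟩
  refine ⟨_, x, B, hx, fun i => ?_, fun k => ?_, fun η => ?_⟩
  · refine hTS ?_
    rw [hxdef]
    exact (e i).2
  · rw [← Finset.card_image_of_injective (B k) hx]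
    refine Finset.card_le_card fun p hp => ?_
    rw [Finset.mem_image] at hp
    obtain ⟨i, hi, rfl⟩ := hp
    rw [hB] at hi
    exact (Finset.mem_filter.1 hi).2
  · unfold LS
    congr 1
    refine Finset.sum_congr rfl fun k _ => ?_
    congr 2
    rw [hB]
    refine Finset.sum_bij (fun i _ => x i) (fun i hi => (Finset.mem_filter.1 hi).2) (fun i _ j _ hij => hx hij)
      (fun p hp => ?_) fun i _ => rfl
    have hpT := hAT k hp
    refine ⟨e.symm ⟨p, hpT⟩, ?_, ?_⟩
    · rw [Finset.mem_filter]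
      refine ⟨Finset.mem_univ _, ?_⟩
      rw [hxdef]
      simpa using hp
    · rw [hxdef]
      simp

variable {μ : Measure ℝ} [IsProbabilityMeasure μ]

/-- Chebyshev's inequality for `log G ≤ V_l`, `G` a sum of path weights: fluctuations are at most of the order of the square root
of `l`. -/
theorem cheb_law (hEM : Pool.Agent.W_7d29a1_h47.EM μ) : ∃ C : ℝ, 0 ≤ C ∧ ∀ (s : ℝ) (S : Set Pt) (G : Env → ℝ) (l : ℕ),
    Poly S G → (∀ η, 0 < G η) → (∀ η, Real.log (G η) ≤ V μ s η 0 l) → ∀ y : ℝ, 0 < y →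
    y ^ 2 * (law μ).real {η | y ≤ |Real.log (G η) - ∫ ξ, Real.log (G ξ) ∂(law μ)|} ≤ C * l := by
  classical
  obtain ⟨C, hC0, hC⟩ := LS_cheb hEM
  refine ⟨C, hC0, fun s S G l hP hG hV y hy => ?_⟩
  obtain ⟨N, a, A, h1, h2, hcard, h3⟩ := hP.card_le hG hV
  obtain ⟨n, x, B, hx, hxS, hBc, hLS⟩ := poly_pi (c := a) h2
  have hF : ∀ η : Env, LS a B (fun i => η (x i)) = Real.log (G η) := fun η => by rw [hLS, ← h3]
  have ha : 0 < ∑ k, a k := by
    have h4 := hG 0
    rw [h3] at h4
    refine lt_of_le_of_ne (Finset.sum_nonneg fun k _ => h1 k) fun h5 => ?_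
    have h6 := (Finset.sum_eq_zero_iff_of_nonneg fun k _ => h1 k).1 h5.symm
    refine h4.ne' (Finset.sum_eq_zero fun k hk => ?_)
    rw [h6 k hk, zero_mul]
  obtain ⟨r, hr⟩ : ∃ r : Env → (Fin n → ℝ), r = fun η i => η (x i) := ⟨_, rfl⟩
  have hrm : Measurable r := by
    rw [hr]
    exact measurable_pi_lambda _ fun i => measurable_pi_apply _
  have hmap : (law μ).map r = Measure.pi fun _ => μ := by
    rw [hr]
    exact map_sites μ x hx
  have hF' : ∀ η, LS a B (r η) = Real.log (G η) := by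
    intro η
    rw [hr]
    exact hF η
  have hmean : ∫ u, LS a B u ∂(Measure.pi fun _ => μ) = ∫ η, Real.log (G η) ∂(law μ) := by
    rw [← hmap, integral_map hrm.aemeasurable (measurable_LS a B).aestronglyMeasurable]
    exact integral_congr_ae (Filter.Eventually.of_forall fun η => hF' η)
  have h4 := hC n N a B h1 ha l (fun k => (hBc k).trans (hcard k)) y hy
  rw [hmean, ← hmap, map_measureReal_apply hrm] at h4
  · refine le_trans (le_of_eq ?_) h4
    congr 2
    ext η
    simp only [Set.mem_ofPred_eq, Set.mem_preimage, hF']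
  · exact measurableSet_le measurable_const ((measurable_LS a B).sub_const _).abs

end law

end Pool.Agent.W_7d29a1_h4g
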