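import Pool.Agent.W_7d29a1_h4g.Poly
import Pool.Agent.W_7d29a1_h60.LuckDens

/-!
Track G (MP_7d29a1_pr): luck amplification (LA of helper42) for the logarithm of a sum of path weights, on the law of the
environment; consequences with the luck bound (2c'): growth of the unit, and cheap with probability `p` implies cheap in the
mean (MC of helper57). (helper4)
-/

namespace Pool.Agent.W_7d29a1_h4g

open MeasureTheory ProbabilityTheory Pool.Agent.W_7d29a1_F Pool.Agent.W_7d29a1_h60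

/-- The law of finitely many distinct sites. -/
theorem map_sites (μ : Measure ℝ) [IsProbabilityMeasure μ] {ι : Type*} [Fintype ι] (x : ι → Pt)
    (hx : Function.Injective x) : (law μ).map (fun (η : Env) (i : ι) => η (x i)) = Measure.pi fun _ : ι => μ := by
  classical
  have hm : Measurable fun (η : Env) (i : ι) => η (x i) := measurable_pi_lambda _ fun i => measurable_pi_apply _
  refine (Measure.pi_eq fun t ht => ?_).symm
  rw [Measure.map_apply hm (MeasurableSet.univ_pi ht)]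
  have h1 : (fun (η : Env) (i : ι) => η (x i)) ⁻¹' (Set.univ.pi t) =
      Set.pi ((Finset.univ.map ⟨x, hx⟩ : Finset Pt) : Set Pt) (Function.extend x t fun _ => Set.univ) := by
    ext η
    simp only [Set.mem_preimage, Set.mem_pi, Set.mem_univ, forall_true_left, Finset.mem_coe, Finset.mem_map,
      Finset.mem_univ, true_and, Function.Embedding.coeFn_mk, forall_exists_index, forall_apply_eq_imp_iff]
    constructor
    · intro h i
      rw [hx.extend_apply]
      exact h i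
    · intro h i
      have := h i
      rwa [hx.extend_apply] at this
  rw [h1, law, Measure.infinitePi_pi]
  · rw [Finset.prod_map]
    refine Finset.prod_congr rfl fun i _ => ?_
    show μ (Function.extend x t (fun _ => Set.univ) (x i)) = μ (t i)
    rw [hx.extend_apply]
  · intro p hp
    rw [Finset.mem_map] at hp
    obtain ⟨i, -, rfl⟩ := hp
    show MeasurableSet (Function.extend x t (fun _ => Set.univ) (x i))
    rw [hx.extend_apply]
    exact ht i

/-- The logarithm of a sum of path weights on finitely many sites. -/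
noncomputable def LS {n N : ℕ} (c : Fin N → ℝ) (A : Fin N → Finset (Fin n)) (w : Fin n → ℝ) : ℝ :=
  Real.log (∑ k, c k * Real.exp (∑ i ∈ A k, w i))

theorem measurable_LS {n N : ℕ} (c : Fin N → ℝ) (A : Fin N → Finset (Fin n)) : Measurable (LS c A) := by
  unfold LS
  refine Real.measurable_log.comp (Finset.measurable_sum _ fun k _ => measurable_const.mul
    (Real.measurable_exp.comp (Finset.measurable_sum _ fun i _ => measurable_pi_apply i)))

/-- Luck amplification, pure form (finitely many independent variables with law `μ`). -/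
def LAfor (μ : Measure ℝ) : Prop :=
  ∀ c : ℝ, 0 < c → ∀ K : ℝ, 0 ≤ K → ∃ U₀ D : ℝ, ∀ (n N : ℕ) (a : Fin N → ℝ) (A : Fin N → Finset (Fin n)),
    (∀ k, 0 ≤ a k) → (0 < ∑ k, a k) → ∀ U : ℝ, U₀ ≤ U →
    c ≤ (Measure.pi fun _ : Fin n => μ).real {w | c * U ≤ |LS a A w - ∫ u, LS a A u ∂(Measure.pi fun _ => μ)|} →
    ∃ f : (Fin n → ℝ) → ℝ, Measurable f ∧ (∀ w, 0 ≤ f w) ∧ (∀ w, f w ≤ D) ∧
      ∫ w, f w ∂(Measure.pi fun _ => μ) = 1 ∧
      ∫ w, LS a A w ∂(Measure.pi fun _ => μ) + K * U ≤ ∫ w, f w * LS a A w ∂(Measure.pi fun _ => μ)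

variable {μ : Measure ℝ} [IsProbabilityMeasure μ] {s : ℝ}

/-- The logarithm of a sum of path weights is integrable etc. -/
theorem Poly.sub_log {S : Set Pt} {G : Env → ℝ} (h : Poly S G) (hG : ∀ η, 0 < G η) : Sub fun η => Real.log (G η) := by
  classical
  have hm := h.measurable
  obtain ⟨N, c, A, h1, _, h3⟩ := h
  obtain ⟨k, hk⟩ : ∃ k, 0 < c k := by
    by_contra hcon
    push Not at hcon
    have := hG 0
    rw [h3] at this
    refine this.not_ge (Finset.sum_nonpos fun i _ => ?_)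
    exact mul_nonpos_of_nonpos_of_nonneg (hcon i) (Real.exp_pos _).le
  obtain ⟨F, hF⟩ : ∃ F : Finset Pt, F = Finset.univ.biUnion A := ⟨_, rfl⟩
  have hb : ∀ (i : Fin N) (η : Env), |∑ x ∈ A i, η x| ≤ ∑ x ∈ F, |η x| := by
    intro i η
    refine (Finset.abs_sum_le_sum_abs _ _).trans (Finset.sum_le_sum_of_subset_of_nonneg ?_ fun _ _ _ => abs_nonneg _)
    rw [hF]
    exact Finset.subset_biUnion_of_mem A (Finset.mem_univ i)
  have hC : 0 < ∑ i, c i := Finset.sum_pos' (fun i _ => h1 i) ⟨k, Finset.mem_univ k, hk⟩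
  have hup : ∀ η : Env, G η ≤ (∑ i, c i) * Real.exp (∑ x ∈ F, |η x|) := by
    intro η
    rw [h3, Finset.sum_mul]
    refine Finset.sum_le_sum fun i _ => mul_le_mul_of_nonneg_left (Real.exp_le_exp.2 ?_) (h1 i)
    exact (le_abs_self _).trans (hb i η)
  have hlo : ∀ η : Env, c k * Real.exp (-∑ x ∈ F, |η x|) ≤ G η := by
    intro η
    rw [h3]
    refine le_trans ?_ (Finset.single_le_sum (fun i _ => mul_nonneg (h1 i) (Real.exp_pos _).le) (Finset.mem_univ k))
    refine mul_le_mul_of_nonneg_left (Real.exp_le_exp.2 ?_) hk.le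
    have := neg_abs_le (∑ x ∈ A k, η x)
    have := hb k η
    linarith
  refine ⟨Real.measurable_log.comp hm, F, |Real.log (∑ i, c i)| + |Real.log (c k)| + 1, by positivity, fun η => ?_⟩
  have hs : 0 ≤ ∑ x ∈ F, |η x| := Finset.sum_nonneg fun _ _ => abs_nonneg _
  have e1 := Real.log_le_log (hG η) (hup η)
  have e2 := Real.log_le_log (mul_pos hk (Real.exp_pos _)) (hlo η)
  rw [Real.log_mul hC.ne' (Real.exp_pos _).ne', Real.log_exp] at e1
  rw [Real.log_mul hk.ne' (Real.exp_pos _).ne', Real.log_exp] at e2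
  have k1 := le_abs_self (Real.log (∑ i, c i))
  have k2 := neg_abs_le (Real.log (c k))
  have k3 := abs_nonneg (Real.log (∑ i, c i))
  have k4 := abs_nonneg (Real.log (c k))
  rw [abs_le]
  constructor <;> nlinarith

/-- Luck amplification for sums of path weights. -/
theorem la_law (h : LAfor μ) {c K : ℝ} (hc : 0 < c) (hK : 0 ≤ K) : ∃ U₀ D : ℝ, ∀ (S : Set Pt) (G : Env → ℝ),
    Poly S G → (∀ η, 0 < G η) → ∀ U : ℝ, U₀ ≤ U →
    c ≤ (law μ).real {η | c * U ≤ |Real.log (G η) - ∫ ξ, Real.log (G ξ) ∂(law μ)|} →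
    ∃ f : Env → ℝ, Measurable f ∧ (∀ η, 0 ≤ f η) ∧ (∀ η, f η ≤ D) ∧ ∫ η, f η ∂(law μ) = 1 ∧ DependsOn f S ∧
      ∫ η, Real.log (G η) ∂(law μ) + K * U ≤ ∫ η, f η * Real.log (G η) ∂(law μ) := by
  classical
  obtain ⟨U₀, D, hLA⟩ := h c hc K hK
  refine ⟨U₀, D, fun S G hP hG U hU hfl => ?_⟩
  obtain ⟨N, a, A, h1, h2, h3⟩ := hP
  obtain ⟨T, hT⟩ : ∃ T : Finset Pt, T = Finset.univ.biUnion A := ⟨_, rfl⟩
  have hTS : (T : Set Pt) ⊆ S := by
    intro p hp
    rw [hT, Finset.mem_coe, Finset.mem_biUnion] at hp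
    obtain ⟨i, -, hi⟩ := hp
    exact h2 i hi
  have hAT : ∀ i, A i ⊆ T := fun i => by
    rw [hT]
    exact Finset.subset_biUnion_of_mem A (Finset.mem_univ i)
  obtain ⟨e⟩ : Nonempty (Fin (Fintype.card T) ≃ T) := ⟨(Fintype.equivFin T).symm⟩
  obtain ⟨x, hxdef⟩ : ∃ x : Fin (Fintype.card T) → Pt, x = fun i => ((e i : T) : Pt) := ⟨_, rfl⟩
  have hx : Function.Injective x := by
    intro i j hij
    rw [hxdef] at hij
    exact e.injective (Subtype.ext hij)
  obtain ⟨r, hr⟩ : ∃ r : Env → (Fin (Fintype.card T) → ℝ), r = fun η i => η (x i) := ⟨_, rfl⟩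
  have hrm : Measurable r := by
    rw [hr]
    exact measurable_pi_lambda _ fun i => measurable_pi_apply _
  have hmap : (law μ).map r = Measure.pi fun _ => μ := by
    rw [hr]
    exact map_sites μ x hx
  obtain ⟨B, hB⟩ : ∃ B : Fin N → Finset (Fin (Fintype.card T)), B = fun k => Finset.univ.filter fun i => x i ∈ A k :=
    ⟨_, rfl⟩
  have hsum : ∀ (k : Fin N) (η : Env), ∑ i ∈ B k, r η i = ∑ p ∈ A k, η p := by
    intro k η
    rw [hr, hB]
    refine Finset.sum_bij (fun i _ => x i) (fun i hi => (Finset.mem_filter.1 hi).2) (fun i _ j _ hij => hx hij)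
      (fun p hp => ?_) fun i _ => rfl
    have hpT := hAT k hp
    refine ⟨e.symm ⟨p, hpT⟩, ?_, ?_⟩
    · rw [Finset.mem_filter]
      refine ⟨Finset.mem_univ _, ?_⟩
      rw [hxdef]
      simpa using hp
    · rw [hxdef]
      simp
  have hF : ∀ η, LS a B (r η) = Real.log (G η) := by
    intro η
    unfold LS
    rw [h3 η]
    congr 1
    exact Finset.sum_congr rfl fun k _ => by rw [hsum]
  have ha : 0 < ∑ k, a k := by
    have h4 := hG 0
    rw [h3] at h4
    refine lt_of_le_of_ne (Finset.sum_nonneg fun k _ => h1 k) fun h5 => ?_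
    have h6 := (Finset.sum_eq_zero_iff_of_nonneg fun k _ => h1 k).1 h5.symm
    refine h4.ne' (Finset.sum_eq_zero fun k hk => ?_)
    rw [h6 k hk, zero_mul]
  have hmean : ∫ u, LS a B u ∂(Measure.pi fun _ => μ) = ∫ η, Real.log (G η) ∂(law μ) := by
    rw [← hmap, integral_map hrm.aemeasurable (measurable_LS a B).aestronglyMeasurable]
    exact integral_congr_ae (Filter.Eventually.of_forall fun η => hF η)
  have hfl' : c ≤ (Measure.pi fun _ : Fin (Fintype.card T) => μ).real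
      {w | c * U ≤ |LS a B w - ∫ u, LS a B u ∂(Measure.pi fun _ => μ)|} := by
    rw [hmean, ← hmap, map_measureReal_apply hrm]
    · refine hfl.trans_eq ?_
      congr 1
      ext η
      simp only [Set.mem_ofPred_eq, Set.mem_preimage, hF]
    · exact measurableSet_le measurable_const ((measurable_LS a B).sub_const _).abs
  obtain ⟨f, hf1, hf2, hf3, hf4, hf5⟩ := hLA _ N a B h1 ha U hU hfl'
  refine ⟨fun η => f (r η), hf1.comp hrm, fun η => hf2 _, fun η => hf3 _, ?_, ?_, ?_⟩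
  · rw [← hf4, ← hmap, integral_map hrm.aemeasurable hf1.aestronglyMeasurable]
  · intro η η' hη
    show f (r η) = f (r η')
    congr 1
    funext i
    rw [hr]
    refine hη _ (hTS ?_)
    rw [hxdef]
    exact (e i).2
  · rw [← hmean]
    refine hf5.trans_eq ?_
    have h7 : Measurable fun w => f w * LS a B w := hf1.mul (measurable_LS a B)
    rw [← hmap, integral_map hrm.aemeasurable h7.aestronglyMeasurable]
    exact integral_congr_ae (Filter.Eventually.of_forall fun η => by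
      show f (r η) * LS a B (r η) = _
      rw [hF])

/-- GROWTH: if the logarithm `F ≤ V_l` of a sum of path weights fluctuates by `c U` with probability `c`, then
`K U ≤ 6 A - E F`, `A` a bound for the mean cost (positive part) of the reference displacements up to the time `D l`. -/
theorem growth (h : LAfor μ) (hEM : Pool.Agent.W_7d29a1_h47.EM μ) {c K : ℝ} (hc : 0 < c) (hK : 0 ≤ K) : ∃ U₀ D : ℝ,
    ∀ (s : ℝ) (l M : ℕ) (z : ℕ → ℤ) (A : ℝ), (∀ m ≤ M, 0 ≤ z m ∧ z m ≤ m) →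
    (∀ m ≤ M, ∫ η, max (X μ s η 0 m (z m)) 0 ∂(law μ) ≤ A) → D * l ≤ M →
    ∀ G : Env → ℝ, Poly (rows 0 l) G → (∀ η, 0 < G η) → (∀ η, Real.log (G η) ≤ V μ s η 0 l) → ∀ U : ℝ, U₀ ≤ U →
    c ≤ (law μ).real {η | c * U ≤ |Real.log (G η) - ∫ ξ, Real.log (G ξ) ∂(law μ)|} →
    ∫ η, Real.log (G η) ∂(law μ) + K * U ≤ 6 * A := by
  obtain ⟨U₀, D, hLA⟩ := la_law h hc hK
  refine ⟨U₀, D, fun s l M z A hz hX hDM G hP hG hGV U hU hfl => ?_⟩
  obtain ⟨f, hf1, hf2, hf3, hf4, hf5, hf6⟩ := hLA _ G hP hG U hU hfl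
  refine hf6.trans ?_
  have h1 := luck_density hEM s l M z hz hX hf1 hf2 hf3 hf4 hf5 hDM
  refine le_trans (integral_mono ?_ ?_ fun η => mul_le_mul_of_nonneg_left (hGV η) (hf2 η)) h1
  · refine Sub.mul_integrable hEM ⟨hf1, ∅, |D|, abs_nonneg _, fun η => ?_⟩ (hP.sub_log hG)
    rw [Finset.sum_empty, add_zero, mul_one, abs_of_nonneg (hf2 η)]
    exact (hf3 η).trans (le_abs_self D)
  · refine Sub.mul_integrable hEM ⟨hf1, ∅, |D|, abs_nonneg _, fun η => ?_⟩ (Sub_V _ _)
    rw [Finset.sum_empty, add_zero, mul_one, abs_of_nonneg (hf2 η)]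
    exact (hf3 η).trans (le_abs_self D)

/-- (MC): CHEAP WITH PROBABILITY `p` IMPLIES CHEAP IN THE MEAN, for the logarithm `F ≤ V_l` of a sum of path weights. -/
theorem mean_of_prob (h : LAfor μ) (hEM : Pool.Agent.W_7d29a1_h47.EM μ) {p : ℝ} (hp : 0 < p) : ∃ C D : ℝ,
    ∀ (s : ℝ) (l M : ℕ) (z : ℕ → ℤ) (A : ℝ), (∀ m ≤ M, 0 ≤ z m ∧ z m ≤ m) →
    (∀ m ≤ M, ∫ η, max (X μ s η 0 m (z m)) 0 ∂(law μ) ≤ A) → D * l ≤ M →
    ∀ G : Env → ℝ, Poly (rows 0 l) G → (∀ η, 0 < G η) → (∀ η, Real.log (G η) ≤ V μ s η 0 l) → ∀ y : ℝ,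
    p ≤ (law μ).real {η | -y ≤ Real.log (G η)} →
    -∫ η, Real.log (G η) ∂(law μ) ≤ max (max (2 * y) C) (6 * A) := by
  obtain ⟨U₀, D, hg⟩ := growth h hEM (c := min p 1) (K := 4) (lt_min hp one_pos) (by norm_num)
  refine ⟨2 * U₀, D, fun s l M z A hz hX hDM G hP hG hGV y hy => ?_⟩
  obtain ⟨m, hm⟩ : ∃ m, m = -∫ η, Real.log (G η) ∂(law μ) := ⟨_, rfl⟩
  rw [← hm]
  by_contra hcon
  rw [not_le, max_lt_iff, max_lt_iff] at hcon
  obtain ⟨⟨h1, h2⟩, h3⟩ := hcon
  have hA : 0 ≤ A := (integral_nonneg fun η => le_max_right _ _).trans (hX 0 (Nat.zero_le _))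
  have h4 := hg s l M z A hz hX hDM G hP hG hGV (m / 2) (by linarith) ?_
  · have : ∫ η, Real.log (G η) ∂(law μ) = -m := by rw [hm, neg_neg]
    linarith
  · refine (min_le_left _ _).trans (hy.trans ?_)
    refine measureReal_mono (fun η hη => ?_) (measure_ne_top _ _)
    rw [Set.mem_ofPred_eq] at hη ⊢
    have h5 : ∫ ξ, Real.log (G ξ) ∂(law μ) = -m := by rw [hm, neg_neg]
    rw [h5]
    have h6 := le_abs_self (Real.log (G η) - -m)
    have h7 : min p 1 * (m / 2) ≤ 1 * (m / 2) := mul_le_mul_of_nonneg_right (min_le_right _ _) (by linarith)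
    linarith

end Pool.Agent.W_7d29a1_h4g
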