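import Pool.Agent.W_7d29a1_h4g.LawLA

/-!
Track G (MP_7d29a1_pr): the unit `EU n = 1 + max_{m ≤ n} E X⁺(0, (m, z_m))` and the growth step (hG): a fluctuation of the size of
the unit forces the unit to grow by any factor within a bounded number of octaves. (helper4)
-/

namespace Pool.Agent.W_7d29a1_h4g

open MeasureTheory ProbabilityTheory Pool.Agent.W_7d29a1_F Pool.Agent.W_7d29a1_h60

/-- The unit: one plus the largest mean positive cost of the reference displacements up to the time `n`. -/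
noncomputable def EU (μ : Measure ℝ) (s : ℝ) (z : ℕ → ℤ) (n : ℕ) : ℝ :=
  1 + (Finset.range (n + 1)).sup' ⟨0, by simp⟩ fun m => ∫ η, max (X μ s η 0 m (z m)) 0 ∂(law μ)

variable {μ : Measure ℝ} [IsProbabilityMeasure μ] {s : ℝ} {z : ℕ → ℤ}

theorem ref_le_EU {m n : ℕ} (h : m ≤ n) : ∫ η, max (X μ s η 0 m (z m)) 0 ∂(law μ) ≤ EU μ s z n - 1 := by
  unfold EU
  rw [add_sub_cancel_left]
  exact Finset.le_sup' (fun m => ∫ η, max (X μ s η 0 m (z m)) 0 ∂(law μ)) (Finset.mem_range.2 (Nat.lt_succ_of_le h))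

theorem one_le_EU (n : ℕ) : 1 ≤ EU μ s z n := by
  have h1 := ref_le_EU (μ := μ) (s := s) (z := z) (Nat.zero_le n)
  have h2 : 0 ≤ ∫ η, max (X μ s η 0 0 (z 0)) 0 ∂(law μ) := integral_nonneg fun η => le_max_right _ _
  linarith

theorem EU_mono : Monotone (EU μ s z) := by
  intro m n h
  unfold EU
  refine add_le_add le_rfl (Finset.sup'_le _ _ fun k hk => ?_)
  have hk' : k ≤ n := (Nat.lt_succ_iff.1 (Finset.mem_range.1 hk)).trans h
  exact Finset.le_sup' (fun m => ∫ η, max (X μ s η 0 m (z m)) 0 ∂(law μ)) (Finset.mem_range.2 (Nat.lt_succ_of_le hk'))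

/-- SOFT: the logarithm of some sum of path weights `G`, `log G ≤ V_n`, of mean at least `- C₀` units, fluctuates by `c` units with
probability `c`. -/
def Soft (μ : Measure ℝ) (s : ℝ) (z : ℕ → ℤ) (c C₀ : ℝ) (n : ℕ) : Prop :=
  ∃ G : Env → ℝ, Poly (rows 0 n) G ∧ (∀ η, 0 < G η) ∧ (∀ η, Real.log (G η) ≤ V μ s η 0 n) ∧
    -(C₀ * EU μ s z n) ≤ ∫ η, Real.log (G η) ∂(law μ) ∧
    c ≤ (law μ).real {η | c * EU μ s z n ≤ |Real.log (G η) - ∫ ξ, Real.log (G ξ) ∂(law μ)|}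

/-- (hG): at a soft scale the unit grows by any factor `B` within `T` octaves. -/
theorem EU_grows (h : LAfor μ) (hEM : Pool.Agent.W_7d29a1_h47.EM μ) {c C₀ : ℝ} (hc : 0 < c) (hC₀ : 0 ≤ C₀) {B : ℝ}
    (hB : 0 ≤ B) : ∃ (T : ℕ) (U₀ : ℝ), ∀ (s : ℝ) (z : ℕ → ℤ), (∀ m, 0 ≤ z m ∧ z m ≤ m) → ∀ n : ℕ, U₀ ≤ EU μ s z n →
    Soft μ s z c C₀ n → B * EU μ s z n ≤ EU μ s z (2 ^ T * n) := by
  obtain ⟨U₀, D, hg⟩ := growth h hEM (c := c) (K := C₀ + 6 * B) hc (by positivity)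
  obtain ⟨T, hT⟩ := pow_unbounded_of_one_lt D (one_lt_two : (1 : ℝ) < 2)
  refine ⟨T, U₀, fun s z hz n hn hS => ?_⟩
  obtain ⟨G, hP, hG, hGV, hmean, hfl⟩ := hS
  have hDM : D * n ≤ ((2 ^ T * n : ℕ) : ℝ) := by
    push_cast
    exact mul_le_mul_of_nonneg_right hT.le (Nat.cast_nonneg _)
  have h1 := hg s n (2 ^ T * n) z (EU μ s z (2 ^ T * n) - 1) (fun m _ => hz m) (fun m hm => ref_le_EU hm) hDM G hP hG hGV
    (EU μ s z n) hn hfl
  have h2 := one_le_EU (μ := μ) (s := s) (z := z) n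
  nlinarith

/-- (MC) for the unit: cheap with probability `p` implies cheap in the mean, in units of a later scale. -/
theorem mean_le_EU (h : LAfor μ) (hEM : Pool.Agent.W_7d29a1_h47.EM μ) {p : ℝ} (hp : 0 < p) : ∃ (T : ℕ) (C : ℝ),
    ∀ (s : ℝ) (z : ℕ → ℤ), (∀ m, 0 ≤ z m ∧ z m ≤ m) → ∀ n : ℕ, ∀ G : Env → ℝ, Poly (rows 0 n) G → (∀ η, 0 < G η) →
    (∀ η, Real.log (G η) ≤ V μ s η 0 n) → ∀ y : ℝ, p ≤ (law μ).real {η | -y ≤ Real.log (G η)} →
    -∫ η, Real.log (G η) ∂(law μ) ≤ max (max (2 * y) C) (6 * EU μ s z (2 ^ T * n)) := by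
  obtain ⟨C, D, hg⟩ := mean_of_prob h hEM hp
  obtain ⟨T, hT⟩ := pow_unbounded_of_one_lt D (one_lt_two : (1 : ℝ) < 2)
  refine ⟨T, C, fun s z hz n G hP hG hGV y hy => ?_⟩
  have hDM : D * n ≤ ((2 ^ T * n : ℕ) : ℝ) := by
    push_cast
    exact mul_le_mul_of_nonneg_right hT.le (Nat.cast_nonneg _)
  have h1 := hg s n (2 ^ T * n) z (EU μ s z (2 ^ T * n) - 1) (fun m _ => hz m) (fun m hm => ref_le_EU hm) hDM G hP hG hGV y hy
  refine h1.trans (max_le_max le_rfl ?_)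
  linarith

end Pool.Agent.W_7d29a1_h4g
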