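import Pool.Agent.W_7d29a1_F.Defs

/-!
Track G (MP_7d29a1_pr): sums of path weights. `Poly S G`: `G` is a nonnegative combination of exponentials of sums of the
environment over finite sets of sites inside `S`. (helper4)
-/

namespace Pool.Agent.W_7d29a1_h4g

open Pool.Agent.W_7d29a1_F

/-- Sums of path weights with sites in `S`. -/
def Poly (S : Set Pt) (G : Env → ℝ) : Prop :=
  ∃ (N : ℕ) (c : Fin N → ℝ) (A : Fin N → Finset Pt), (∀ i, 0 ≤ c i) ∧ (∀ i, (A i : Set Pt) ⊆ S) ∧
    ∀ η, G η = ∑ i, c i * Real.exp (∑ x ∈ A i, η x)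

theorem Poly.of_fintype {S : Set Pt} {G : Env → ℝ} {ι : Type*} [Fintype ι] (c : ι → ℝ) (A : ι → Finset Pt)
    (hc : ∀ i, 0 ≤ c i) (hA : ∀ i, (A i : Set Pt) ⊆ S) (h : ∀ η, G η = ∑ i, c i * Real.exp (∑ x ∈ A i, η x)) :
    Poly S G := by
  obtain ⟨e⟩ : Nonempty (Fin (Fintype.card ι) ≃ ι) := ⟨(Fintype.equivFin ι).symm⟩
  refine ⟨Fintype.card ι, fun i => c (e i), fun i => A (e i), fun i => hc _, fun i => hA _, fun η => ?_⟩
  rw [h η]
  exact (Equiv.sum_comp e fun i => c i * Real.exp (∑ x ∈ A i, η x)).symm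

theorem Poly.mono {S S' : Set Pt} {G : Env → ℝ} (h : Poly S G) (hS : S ⊆ S') : Poly S' G := by
  obtain ⟨N, c, A, h1, h2, h3⟩ := h
  exact ⟨N, c, A, h1, fun i => (h2 i).trans hS, h3⟩

theorem Poly.congr {S : Set Pt} {G G' : Env → ℝ} (h : Poly S G) (hG : ∀ η, G' η = G η) : Poly S G' := by
  obtain ⟨N, c, A, h1, h2, h3⟩ := h
  exact ⟨N, c, A, h1, h2, fun η => by rw [hG, h3]⟩

theorem Poly.const (S : Set Pt) {r : ℝ} (hr : 0 ≤ r) : Poly S fun _ => r := by
  refine Poly.of_fintype (ι := Unit) (fun _ => r) (fun _ => ∅) (fun _ => hr) (fun _ => by simp) fun η => ?_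
  simp

theorem Poly.zero (S : Set Pt) : Poly S fun _ => 0 := Poly.const S le_rfl

theorem Poly.add {S : Set Pt} {G H : Env → ℝ} (hG : Poly S G) (hH : Poly S H) : Poly S fun η => G η + H η := by
  obtain ⟨N, c, A, h1, h2, h3⟩ := hG
  obtain ⟨M, d, B, k1, k2, k3⟩ := hH
  refine Poly.of_fintype (ι := Fin N ⊕ Fin M) (Sum.elim c d) (Sum.elim A B) ?_ ?_ fun η => ?_
  · rintro (i | i)
    · exact h1 i
    · exact k1 i
  · rintro (i | i)
    · exact h2 i
    · exact k2 i
  · rw [h3, k3, Fintype.sum_sum_type]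
    rfl

theorem Poly.smul {S : Set Pt} {G : Env → ℝ} {r : ℝ} (hr : 0 ≤ r) (hG : Poly S G) : Poly S fun η => r * G η := by
  obtain ⟨N, c, A, h1, h2, h3⟩ := hG
  refine ⟨N, fun i => r * c i, A, fun i => mul_nonneg hr (h1 i), h2, fun η => ?_⟩
  show r * G η = _
  rw [h3, Finset.mul_sum]
  exact Finset.sum_congr rfl fun i _ => by ring

theorem Poly.sum {S : Set Pt} {ι : Type*} (I : Finset ι) {G : ι → Env → ℝ} (h : ∀ i ∈ I, Poly S (G i)) :
    Poly S fun η => ∑ i ∈ I, G i η := by
  classical
  induction I using Finset.induction_on with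
  | empty => exact (Poly.zero S).congr fun η => by simp
  | insert a I ha ih =>
    refine ((h a (Finset.mem_insert_self a I)).add (ih fun i hi => h i (Finset.mem_insert_of_mem hi))).congr fun η => ?_
    rw [Finset.sum_insert ha]

/-- Products of sums of path weights with disjoint sets of sites. -/
theorem Poly.mul {S S' : Set Pt} {G H : Env → ℝ} (hG : Poly S G) (hH : Poly S' H) (hd : Disjoint S S') :
    Poly (S ∪ S') fun η => G η * H η := by
  classical
  obtain ⟨N, c, A, h1, h2, h3⟩ := hG
  obtain ⟨M, d, B, k1, k2, k3⟩ := hH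
  refine Poly.of_fintype (ι := Fin N × Fin M) (fun p => c p.1 * d p.2) (fun p => A p.1 ∪ B p.2)
    (fun p => mul_nonneg (h1 _) (k1 _)) (fun p => ?_) fun η => ?_
  · rw [Finset.coe_union]
    exact Set.union_subset_union (h2 _) (k2 _)
  · rw [h3, k3, Finset.sum_mul_sum, Fintype.sum_prod_type]
    refine Finset.sum_congr rfl fun i _ => Finset.sum_congr rfl fun j _ => ?_
    have hAB : Disjoint (A i) (B j) := by
      rw [Finset.disjoint_left]
      intro x hx hx'
      exact Set.disjoint_left.1 hd (h2 i hx) (k2 j hx')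
    rw [Finset.sum_union hAB, Real.exp_add]
    ring

theorem Poly.exp_site (x : Pt) : Poly {x} fun η => Real.exp (η x) := by
  refine Poly.of_fintype (ι := Unit) (fun _ => 1) (fun _ => {x}) (fun _ => zero_le_one) (fun _ => by simp) fun η => ?_
  simp

theorem Poly.nonneg {S : Set Pt} {G : Env → ℝ} (h : Poly S G) (η : Env) : 0 ≤ G η := by
  obtain ⟨N, c, A, h1, _, h3⟩ := h
  rw [h3]
  exact Finset.sum_nonneg fun i _ => mul_nonneg (h1 i) (Real.exp_pos _).le

theorem Poly.measurable {S : Set Pt} {G : Env → ℝ} (h : Poly S G) : Measurable G := by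
  obtain ⟨N, c, A, h1, _, h3⟩ := h
  have : G = fun η => ∑ i, c i * Real.exp (∑ x ∈ A i, η x) := funext h3
  rw [this]
  refine Finset.measurable_sum _ fun i _ => measurable_const.mul (Real.measurable_exp.comp ?_)
  exact Finset.measurable_sum _ fun x _ => measurable_pi_apply x

theorem Poly.dependsOn {S : Set Pt} {G : Env → ℝ} (h : Poly S G) : DependsOn G S := by
  obtain ⟨N, c, A, _, h2, h3⟩ := h
  intro η η' hη
  rw [h3, h3]
  refine Finset.sum_congr rfl fun i _ => ?_
  rw [Finset.sum_congr rfl fun x hx => hη x (h2 i hx)]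

/-- The sites of the paths with `n` steps from `a`. -/
def sites (a : Pt) (n : ℕ) : Set Pt := {p | a.1 < p.1 ∧ p.1 ≤ a.1 + n ∧ a.2 ≤ p.2 ∧ p.2 ≤ a.2 + n}

theorem sites_mono (a : Pt) {m n : ℕ} (h : m ≤ n) : sites a m ⊆ sites a n := by
  rintro p ⟨h1, h2, h3, h4⟩
  have : (m : ℤ) ≤ n := by exact_mod_cast h
  exact ⟨h1, by omega, h3, by omega⟩

/-- Outside the cone there is no path. -/
theorem Zr_out (R : Set Pt) (η : Env) (a : Pt) (n : ℕ) (y : ℤ) (h : y < 0 ∨ (n : ℤ) < y) : Zr R η a n y = 0 := by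
  induction n generalizing y with
  | zero =>
    show (if y = 0 then (1 : ℝ) else 0) = 0
    rw [if_neg]
    rcases h with h | h
    · exact h.ne
    · exact (by simpa using h : (0 : ℤ) < y).ne'
  | succ n ih =>
    show R.indicator (fun p => Real.exp (η p)) (a.1 + ((n : ℤ) + 1), a.2 + y) *
      (Zr R η a n y + Zr R η a n (y - 1)) = 0
    rw [ih y, ih (y - 1), add_zero, mul_zero]
    · rcases h with h | h
      · left
        omega
      · right
        push_cast at h
        omega
    · rcases h with h | h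
      · left
        exact h
      · right
        push_cast at h
        omega

theorem poly_Zr (R : Set Pt) (a : Pt) (n : ℕ) (y : ℤ) : Poly (sites a n) fun η => Zr R η a n y := by
  classical
  induction n generalizing y with
  | zero =>
    by_cases h : y = 0
    · exact (Poly.const _ zero_le_one).congr fun η => if_pos h
    · exact (Poly.zero _).congr fun η => if_neg h
  | succ n ih =>
    by_cases hy : 0 ≤ y ∧ y ≤ (n : ℤ) + 1
    · set x : Pt := (a.1 + ((n : ℤ) + 1), a.2 + y) with hx
      have hxn : x ∉ sites a n := by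
        rintro ⟨_, h2, _⟩
        have : x.1 = a.1 + ((n : ℤ) + 1) := rfl
        omega
      have h1 : Poly {x} fun η => R.indicator (fun p => Real.exp (η p)) x := by
        by_cases hR : x ∈ R
        · exact (Poly.exp_site x).congr fun η => Set.indicator_of_mem hR _
        · exact (Poly.zero _).congr fun η => Set.indicator_of_notMem hR _
      have h2 := h1.mul ((ih y).add (ih (y - 1))) (Set.disjoint_singleton_left.2 hxn)
      refine (h2.mono ?_).congr fun η => rfl
      rintro p (hp | hp)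
      · rw [Set.mem_singleton_iff] at hp
        rw [hp]
        refine ⟨?_, ?_, ?_, ?_⟩
        · show a.1 < a.1 + ((n : ℤ) + 1)
          omega
        · show a.1 + ((n : ℤ) + 1) ≤ a.1 + ((n + 1 : ℕ) : ℤ)
          push_cast
          omega
        · show a.2 ≤ a.2 + y
          omega
        · show a.2 + y ≤ a.2 + ((n + 1 : ℕ) : ℤ)
          push_cast
          omega
      · exact sites_mono a (Nat.le_succ n) hp
    · refine (Poly.zero _).congr fun ξ => Zr_out R ξ a (n + 1) y ?_
      rcases not_and_or.1 hy with h | h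
      · left
        omega
      · right
        push_cast
        omega

variable {μ : MeasureTheory.Measure ℝ} {s : ℝ}

theorem poly_WR (R : Set Pt) (a : Pt) (n : ℕ) (y : ℤ) : Poly (sites a n) fun η => WR μ s R η a n y :=
  ((poly_Zr R a n y).smul (Real.exp_pos _).le).congr fun η => rfl

theorem poly_W (a : Pt) (n : ℕ) (y : ℤ) : Poly (sites a n) fun η => W μ s η a n y := poly_WR _ a n y

theorem poly_WS (a : Pt) (n : ℕ) (A : Finset ℤ) : Poly (sites a n) fun η => WS μ s η a n A :=
  Poly.sum A fun y _ => poly_W a n y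

theorem poly_Fv (a : Pt) (n : ℕ) (v : ℝ) : Poly (sites a n) fun η => Fv μ s η a n v := poly_WS a n _

end Pool.Agent.W_7d29a1_h4g
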